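import Pool.Agent.TH729.MI.O

/-!
# Diophantine interpretations of the integers with classes of bounded degree

Mazur's conjecture (in the affine form of the frozen statement) implies that `ℤ` has no Diophantine
model in `ℚ` (Cornelissen, Zahidi).  For Diophantine interpretations, where an integer is
represented by the elements of an equivalence class `C(z)`, `z ∈ ℤ`, of tuples of rational numbers,
this is the question.  We prove:

* If `ℤ` has a Diophantine interpretation in `ℚ` such that, for some `d` and some infinite
  recursively enumerable set `W` of integers, (almost) every class `C(z)`, `z ∈ W`, is cut out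
  among the classes of the elements of `W` by polynomials of degree at most `d`, then Mazur's
  conjecture is false.  (For example: all classes have at most `d` elements, or at least those of
  the powers of `2`; tuples up to a common factor; orbits and fibres which are algebraic sets of
  bounded degree.)  So under Mazur's conjecture the set of the integers whose classes have at most
  `d` elements is finite or immune, for every `d`.

More precisely, Mazur's conjecture implies the following for every Diophantine interpretation of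
`ℤ` in `ℚ` and every infinite recursively enumerable set `W` of integers:

* There is one ideal `J` of polynomials such that for every `d` there are infinitely many `z ∈ W`
  for which the polynomials of degree at most `d` in each variable which vanish on the class
  `C(z)` are exactly those of `J`.  (So infinitely many classes lie in the zero set `Y` of `J` and
  satisfy no equations of degree at most `d` but those of `Y`.)
* Let `R` be a Diophantine relation between the elements `x` of `D` and vectors `u ∈ ℚᵏ`, which
  depends only on the class of `x`, and let `B(z)` be the set of the vectors related to the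
  integer `z`.  Then the span of `B(z)` is the same subspace `Λ` for infinitely many `z ∈ W`,
  and it has a larger dimension than `Λ` only for finitely many `z ∈ W`.
* If `B(z)` has at most one element for every `z ∈ W`, then only finitely many vectors occur (for
  instance every Diophantine function `D → ℚᵏ` which is constant on the classes has a finite
  image).

Idea of the proof.  Under Mazur's conjecture a Diophantine set has only finitely many isolated
points, so that an infinite Diophantine set of vectors has a rational limit point `p` in it.  If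
every `B(z)` has at most one element, then the record approximations to `p`, in the order of the
codes of the solutions, are given by a recursively enumerable set of integers; this set is
Diophantine over `ℤ` (bounded quantifiers), so the set of the corresponding vectors is Diophantine
over `ℚ`, but it is a sequence converging to `p`.  In general one replaces `B(z)` by the matrix of
the orthogonal projection to its span, which is a Diophantine function of the integers `z` for
which the span has the generic dimension.
-/

set_option autoImplicit false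

namespace Pool.Agent.Results.MP_a278ce_lc.BoundedDegreeClasses

open MvPolynomial

/-- Diophantine sets of rational vectors (with coordinates indexed by `τ`). -/
def Diophantine {τ : Type} (S : Set (τ → ℚ)) : Prop :=
  ∃ (k : ℕ) (p : MvPolynomial (τ ⊕ Fin k) ℚ), ∀ x : τ → ℚ,
    x ∈ S ↔ ∃ w : Fin k → ℚ, eval (Sum.elim x w) p = 0

/-- A Diophantine interpretation of `ℤ` in `ℚ`, as in the frozen statement: the integer `z` is
represented by the `x ∈ D` with `φ x = z`; equality, addition and multiplication of the
represented integers are Diophantine. -/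
def Interpretation (n : ℕ) (D : Set (Fin n → ℚ)) (φ : (Fin n → ℚ) → ℤ) : Prop :=
  Set.SurjOn φ D Set.univ ∧ Diophantine D ∧
  Diophantine {x : Fin 2 × Fin n → ℚ | (fun j => x (0, j)) ∈ D ∧ (fun j => x (1, j)) ∈ D ∧
    φ (fun j => x (0, j)) = φ (fun j => x (1, j))} ∧
  Diophantine {x : Fin 3 × Fin n → ℚ | (fun j => x (0, j)) ∈ D ∧ (fun j => x (1, j)) ∈ D ∧
    (fun j => x (2, j)) ∈ D ∧
    φ (fun j => x (0, j)) + φ (fun j => x (1, j)) = φ (fun j => x (2, j))} ∧
  Diophantine {x : Fin 3 × Fin n → ℚ | (fun j => x (0, j)) ∈ D ∧ (fun j => x (1, j)) ∈ D ∧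
    (fun j => x (2, j)) ∈ D ∧
    φ (fun j => x (0, j)) * φ (fun j => x (1, j)) = φ (fun j => x (2, j))}

/-- Mazur's conjecture, as in the frozen statement. -/
def Mazur : Prop :=
  ∀ m : ℕ, ∀ q : MvPolynomial (Fin m) ℚ, ∀ S : Set (Fin m → ℝ),
    S = closure ((fun r : Fin m → ℚ => fun i => ((r i : ℚ) : ℝ)) ''
      {r : Fin m → ℚ | eval r q = 0}) →
    ((fun a => connectedComponentIn S a) '' S).Finite

/-- Recursively enumerable sets of integers, in the form given by the theorem of Davis, Putnam,
Robinson and Matiyasevich: the sets `{z ∈ ℤ : P(z, w) = 0 for some w ∈ ℤᵐ}`. -/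
def RE (W : Set ℤ) : Prop :=
  ∃ (m : ℕ) (P : MvPolynomial (Unit ⊕ Fin m) ℤ), ∀ z : ℤ,
    z ∈ W ↔ ∃ w : Fin m → ℤ, eval (Sum.elim (fun _ => z) w) P = 0

/-- The relation between the elements `x` of `D` and vectors which relates `x` to the elements of
`B(φ x)`. -/
def Related {n k : ℕ} (D : Set (Fin n → ℚ)) (φ : (Fin n → ℚ) → ℤ) (B : ℤ → Set (Fin k → ℚ)) :
    Set (Fin n ⊕ Fin k → ℚ) :=
  {x | (fun j => x (Sum.inl j)) ∈ D ∧ (fun i => x (Sum.inr i)) ∈ B (φ fun j => x (Sum.inl j))}

theorem result :
    -- the question for interpretations with classes of bounded degree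
    (∀ (n : ℕ) (D : Set (Fin n → ℚ)) (φ : (Fin n → ℚ) → ℤ), Interpretation n D φ →
      (∃ W : Set ℤ, RE W ∧ W.Infinite ∧ ∃ d : ℕ,
        {z ∈ W | ¬ ∃ G : Set (MvPolynomial (Fin n) ℚ), (∀ f ∈ G, f.totalDegree ≤ d) ∧
          ∀ x ∈ D, φ x ∈ W → (φ x = z ↔ ∀ f ∈ G, eval x f = 0)}.Finite) →
      ¬ Mazur) ∧
    -- consequences of Mazur's conjecture for all interpretations and infinite r.e. sets
    (Mazur → ∀ (n : ℕ) (D : Set (Fin n → ℚ)) (φ : (Fin n → ℚ) → ℤ), Interpretation n D φ →
      ∀ W : Set ℤ, RE W → W.Infinite →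
      -- one ideal which gives the equations of bounded degree of infinitely many classes
      (∃ J : Ideal (MvPolynomial (Fin n) ℚ), ∀ d : ℕ, {z ∈ W | ∀ f : MvPolynomial (Fin n) ℚ,
        (∀ i, f.degreeOf i ≤ d) → ((∀ x ∈ D, φ x = z → eval x f = 0) ↔ f ∈ J)}.Infinite) ∧
      -- infinitely many integers with the same span
      (∀ (k : ℕ) (B : ℤ → Set (Fin k → ℚ)), Diophantine (Related D φ B) →
        ∃ Λ : Submodule ℚ (Fin k → ℚ), {z ∈ W | Submodule.span ℚ (B z) = Λ}.Infinite ∧
          {z ∈ W | Module.finrank ℚ Λ < Module.finrank ℚ (Submodule.span ℚ (B z))}.Finite) ∧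
      -- invariant Diophantine functions have a finite image
      (∀ (k : ℕ) (B : ℤ → Set (Fin k → ℚ)), Diophantine (Related D φ B) →
        (∀ z ∈ W, (B z).Subsingleton) → (⋃ z ∈ W, B z).Finite)) := by
  have hDQ : ∀ {τ : Type} {S : Set (τ → ℚ)}, Diophantine S → Pool.Agent.TH729.MI.DQ S := by
    rintro τ S ⟨k, p, hp⟩
    exact ⟨Fin k, inferInstance, p, hp⟩
  have hI : ∀ (n : ℕ) (D : Set (Fin n → ℚ)) (φ : (Fin n → ℚ) → ℤ), Interpretation n D φ →
      Pool.Agent.TH729.MI.Interp n D φ := by
    rintro n D φ ⟨h1, h2, h3, h4, h5⟩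
    exact ⟨h1, hDQ h2, hDQ h3, hDQ h4, hDQ h5⟩
  refine ⟨?_, fun M n D φ h W hW hWi => ⟨Pool.Agent.TH729.MI.one_idealZ M (hI n D φ h) hW hWi,
    fun k B hB => ?_, fun k B hB hs => ?_⟩⟩
  · rintro n D φ h ⟨W, hW, hWi, d, hd⟩ M
    obtain ⟨J, hJ⟩ := Pool.Agent.TH729.MI.one_idealZ M (hI n D φ h) hW hWi
    have h1 := (hJ d).sdiff hd
    obtain ⟨z, hz⟩ := h1.nonempty
    obtain ⟨z', hz'⟩ := (h1.sdiff (Set.finite_singleton z)).nonempty
    obtain ⟨⟨hzW, hzJ⟩, hz2⟩ := hz
    obtain ⟨⟨⟨hzW', hzJ'⟩, hz2'⟩, hne⟩ := hz'
    have h2 : ∃ G : Set (MvPolynomial (Fin n) ℚ), (∀ f ∈ G, f.totalDegree ≤ d) ∧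
        ∀ x ∈ D, φ x ∈ W → (φ x = z ↔ ∀ f ∈ G, eval x f = 0) := by
      by_contra hcon
      exact hz2 ⟨hzW, hcon⟩
    obtain ⟨G, hG, hG'⟩ := h2
    obtain ⟨x, hx, hx'⟩ := h.1 (Set.mem_univ z')
    have h3 : φ x = z := by
      rw [hG' x hx (by rw [hx']; exact hzW')]
      intro f hf
      have hfd : ∀ i, f.degreeOf i ≤ d := fun i => (degreeOf_le_totalDegree f i).trans (hG f hf)
      have h4 : f ∈ J := (hzJ f hfd).1 fun y hy hyz =>
        (hG' y hy (by rw [hyz]; exact hzW)).1 hyz f hf
      exact (hzJ' f hfd).2 h4 x hx hx'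
    exact hne (by rw [Set.mem_singleton_iff, ← hx', h3])
  · obtain ⟨Z', h1, h2, -, Λ, h3, h4⟩ := Pool.Agent.TH729.MI.spansZ M (hI n D φ h) (hDQ hB)
      ((hI n D φ h).re hW) hWi
    exact ⟨Λ, h2.mono fun z hz => ⟨h1 hz, h3 z hz⟩, h4⟩
  · have h1 : Pool.Agent.TH729.MI.DQ {x : Fin n ⊕ Fin k → ℚ | (fun j => x (Sum.inl j)) ∈ D ∧
        (fun i => x (Sum.inr i)) ∈ (fun z => {u | z ∈ W ∧ u ∈ B z} : ℤ → Set (Fin k → ℚ))
          (φ fun j => x (Sum.inl j))} := by
      refine ((((hI n D φ h).re hW).re (τ' := Fin n ⊕ Fin k) Sum.inl).and (hDQ hB)).congr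
        fun x => ?_
      simp only [Set.mem_ofPred_eq, Related]
      tauto
    have h2 := Pool.Agent.TH729.MI.core' (B := fun z => {u | z ∈ W ∧ u ∈ B z}) M (hI n D φ h)
      h1 (by
      rintro z u ⟨hz, hu⟩ u' ⟨-, hu'⟩
      exact hs z hz hu hu')
    refine h2.subset ?_
    intro u hu
    simp only [Set.mem_iUnion] at hu
    obtain ⟨z, hz, hu⟩ := hu
    exact Set.mem_iUnion.2 ⟨z, hz, hu⟩

end Pool.Agent.Results.MP_a278ce_lc.BoundedDegreeClasses
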